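import Pool.Agent.W2helper45.UC.Stm

/-!
# Project UC (MP_0f948c_co), piece UP: raising the weight
-/

set_option autoImplicit false

namespace Pool.Agent.W2helper85.UC

open Pool.Agent.W2helper45.UC
open Pool.Agent.X153.CH (rk)

variable {n : ℕ}

theorem mon_add {A : Type} [CommRing A] (x : Finset (Fin n) → A) (m : Ex n) (H : Finset (Fin n))
    (a : ℕ) : mon x (m + Finsupp.single H a) = mon x m * x H ^ a := by
  unfold mon
  rw [Finsupp.prod_add_index' (h := fun F a => x F ^ a) (fun _ => pow_zero _)
    (fun _ _ _ => pow_add _ _ _), Finsupp.prod_single_index (h := fun F a => x F ^ a) (pow_zero _)]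

theorem wt_add (r : ℕ) (m : Ex n) (H : Finset (Fin n)) (a : ℕ) :
    wt r (m + Finsupp.single H a) = wt r m + a * rk r H := by
  unfold wt
  rw [Finsupp.sum_add_index' (fun _ => zero_mul _) (fun _ _ _ => add_mul _ _ _),
    Finsupp.sum_single_index (zero_mul _)]

theorem degree_add (m : Ex n) (H : Finset (Fin n)) (a : ℕ) :
    (m + Finsupp.single H a).degree = m.degree + a := by
  rw [map_add, Finsupp.degree_single]

theorem rk_mono (r : ℕ) {F G : Finset (Fin n)} (h : F ⊆ G) : rk r F ≤ rk r G :=
  min_le_min (Finset.card_le_card h) le_rfl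

theorem rk_lt {r : ℕ} {G H : Finset (Fin n)} (hG : IsFl r G) (h : G ⊂ H) : rk r G < rk r H := by
  have h1 := Finset.card_lt_card h
  rcases hG.2 with h2 | h2
  · unfold rk
    rw [min_eq_left h2.le]
    exact lt_min h1 h2
  · exact absurd h (by rw [h2]; exact fun h3 => h3.2 (Finset.subset_univ _))

theorem p_up : P_UP := by
  intro n r A _ _ x _ h1 hrn G hG c
  set s : Finset (Finset (Fin n)) := Finset.univ.filter fun H => G ⊆ H with hs
  have hGs : G ∈ s := by
    rw [hs, Finset.mem_filter]
    exact ⟨Finset.mem_univ _, subset_rfl⟩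
  set g : A := ∑ H ∈ s, x H with hg
  have hg' : g = x G + ∑ H ∈ s.erase G, x H := (Finset.add_sum_erase _ _ hGs).symm
  induction c with
  | zero =>
    intro m
    rw [pow_zero, pow_zero, sub_self, mul_zero]
    exact Submodule.zero_mem _
  | succ c ih =>
    intro m
    have e1 : mon x m * (g ^ (c + 1) - x G ^ (c + 1)) =
        ∑ H ∈ s, mon x (m + Finsupp.single H 1) * (g ^ c - x G ^ c) +
          ∑ H ∈ s.erase G, mon x (m + Finsupp.single H 1 + Finsupp.single G c) := by
      simp only [mon_add, pow_one]
      rw [← Finset.sum_mul, ← Finset.mul_sum, ← Finset.sum_mul, ← Finset.mul_sum, ← hg,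
        eq_sub_of_add_eq' hg'.symm]
      ring
    rw [e1]
    refine Submodule.add_mem _ (Submodule.sum_mem _ fun H hH => ?_)
      (Submodule.sum_mem _ fun H hH => ?_)
    · refine Submodule.span_mono ?_ (ih (m + Finsupp.single H 1))
      rintro y ⟨m', h2, h3, rfl⟩
      refine ⟨m', ?_, lt_of_le_of_lt ?_ h3, rfl⟩
      · rw [h2, degree_add]
        ring
      · have h4 := rk_mono r (Finset.mem_filter.1 hH).2
        rw [wt_add, one_mul, add_mul, one_mul]
        omega
    · refine Submodule.subset_span ⟨_, ?_, ?_, rfl⟩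
      · rw [degree_add, degree_add]
        ring
      · rw [Finset.mem_erase, hs, Finset.mem_filter] at hH
        have h4 := rk_lt hG (Finset.ssubset_iff_subset_ne.2 ⟨hH.2.2, fun h => hH.1 h.symm⟩)
        rw [wt_add, wt_add, one_mul, add_mul, one_mul]
        omega

end Pool.Agent.W2helper85.UC
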